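import Mathlib

/-!
# Gluings and quotients of submonoids of `ℕ`
-/

set_option autoImplicit false
set_option linter.all false

namespace Pool.Agent.X317.NSQ

/-- The atoms of `S`: its minimal generators. -/
def atoms (S : AddSubmonoid ℕ) : Set ℕ :=
  {n | n ∈ S ∧ n ≠ 0 ∧ ∀ a ∈ S, ∀ b ∈ S, a + b = n → a = 0 ∨ b = 0}

theorem mem_closure_atoms (S : AddSubmonoid ℕ) (x : ℕ) (hx : x ∈ S) :
    x ∈ AddSubmonoid.closure (atoms S) := by
  induction x using Nat.strong_induction_on with
  | _ x ih =>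
    by_cases h0 : x = 0
    · rw [h0]
      exact AddSubmonoid.zero_mem _
    by_cases hA : x ∈ atoms S
    · exact AddSubmonoid.subset_closure hA
    · have h1 : ∃ a ∈ S, ∃ b ∈ S, a + b = x ∧ a ≠ 0 ∧ b ≠ 0 := by
        by_contra h2
        push Not at h2
        refine hA ⟨hx, h0, fun a ha b hb hab => ?_⟩
        by_cases ha0 : a = 0
        · exact Or.inl ha0
        · exact Or.inr (h2 a ha b hb hab ha0)
      obtain ⟨a, ha, b, hb, rfl, ha0, hb0⟩ := h1
      exact AddSubmonoid.add_mem _ (ih a (by omega) ha) (ih b (by omega) hb)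

theorem closure_atoms (S : AddSubmonoid ℕ) : AddSubmonoid.closure (atoms S) = S := by
  apply le_antisymm
  · rw [AddSubmonoid.closure_le]
    exact fun x hx => hx.1
  · exact fun x hx => mem_closure_atoms S x hx

/-- `μ S₁ + l S₂` -/
def glue (S1 S2 : AddSubmonoid ℕ) (l m : ℕ) : AddSubmonoid ℕ where
  carrier := {z | ∃ s1 ∈ S1, ∃ s2 ∈ S2, z = m * s1 + l * s2}
  zero_mem' := ⟨0, S1.zero_mem, 0, S2.zero_mem, by simp⟩
  add_mem' := by
    rintro _ _ ⟨s1, h1, s2, h2, rfl⟩ ⟨t1, h3, t2, h4, rfl⟩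
    exact ⟨s1 + t1, S1.add_mem h1 h3, s2 + t2, S2.add_mem h2 h4, by ring⟩

theorem mem_glue {S1 S2 : AddSubmonoid ℕ} {l m z : ℕ} :
    z ∈ glue S1 S2 l m ↔ ∃ s1 ∈ S1, ∃ s2 ∈ S2, z = m * s1 + l * s2 := Iff.rfl

theorem glue_comm (S1 S2 : AddSubmonoid ℕ) (l m : ℕ) : glue S1 S2 l m = glue S2 S1 m l := by
  ext z
  constructor
  · rintro ⟨s1, h1, s2, h2, rfl⟩
    exact ⟨s2, h2, s1, h1, by ring⟩
  · rintro ⟨s1, h1, s2, h2, rfl⟩
    exact ⟨s2, h2, s1, h1, by ring⟩

/-- the gluing is generated by the multiples of the atoms -/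
theorem glue_eq_closure (S1 S2 : AddSubmonoid ℕ) (l m : ℕ) :
    glue S1 S2 l m = AddSubmonoid.closure ((fun x => m * x) '' atoms S1 ∪ (fun x => l * x) '' atoms S2) := by
  apply le_antisymm
  · rintro z ⟨s1, h1, s2, h2, rfl⟩
    refine AddSubmonoid.add_mem _ ?_ ?_
    · have h3 := mem_closure_atoms S1 s1 h1
      clear h1
      induction h3 using AddSubmonoid.closure_induction with
      | mem x hx => exact AddSubmonoid.subset_closure (Or.inl ⟨x, hx, rfl⟩)
      | zero => exact AddSubmonoid.zero_mem _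
      | add x y _ _ hx hy =>
        rw [mul_add]
        exact AddSubmonoid.add_mem _ hx hy
    · have h3 := mem_closure_atoms S2 s2 h2
      clear h2
      induction h3 using AddSubmonoid.closure_induction with
      | mem x hx => exact AddSubmonoid.subset_closure (Or.inr ⟨x, hx, rfl⟩)
      | zero => exact AddSubmonoid.zero_mem _
      | add x y _ _ hx hy =>
        rw [mul_add]
        exact AddSubmonoid.add_mem _ hx hy
  · rw [AddSubmonoid.closure_le]
    rintro z (⟨x, hx, rfl⟩ | ⟨x, hx, rfl⟩)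
    · exact ⟨x, hx.1, 0, S2.zero_mem, by simp⟩
    · exact ⟨0, S1.zero_mem, x, hx.1, by simp⟩

/-- the atoms of a gluing are multiples of atoms -/
theorem atoms_glue_sub {S1 S2 : AddSubmonoid ℕ} {l m z : ℕ} (hz : z ∈ atoms (glue S1 S2 l m)) :
    (∃ x ∈ atoms S1, z = m * x) ∨ ∃ x ∈ atoms S2, z = l * x := by
  have key : ∀ T : AddSubmonoid ℕ, ∀ G : Set ℕ, T = AddSubmonoid.closure G → ∀ z ∈ atoms T, z ∈ G := by
    intro T G hT z hz
    have h1 : ∀ y ∈ AddSubmonoid.closure G, y = 0 ∨ ∃ g ∈ G, g ≠ 0 ∧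
        ∃ y' ∈ AddSubmonoid.closure G, y = g + y' := by
      intro y hy
      induction hy using AddSubmonoid.closure_induction with
      | mem x hx =>
        by_cases hx0 : x = 0
        · exact Or.inl hx0
        · exact Or.inr ⟨x, hx, hx0, 0, AddSubmonoid.zero_mem _, by omega⟩
      | zero => exact Or.inl rfl
      | add x y hxc hyc hx hy =>
        rcases hx with rfl | ⟨g, hg, hg0, y', hy', rfl⟩
        · rw [zero_add]
          exact hy
        · exact Or.inr ⟨g, hg, hg0, y' + y, AddSubmonoid.add_mem _ hy' hyc, by omega⟩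
    have hzc : z ∈ AddSubmonoid.closure G := hT ▸ hz.1
    rcases h1 z hzc with h2 | ⟨g, hg, hg0, y', hy', hgy⟩
    · exact absurd h2 hz.2.1
    · rcases hz.2.2 g (hT ▸ AddSubmonoid.subset_closure hg) y' (hT ▸ hy') hgy.symm with h3 | h3
      · exact absurd h3 hg0
      · rw [hgy, h3, add_zero]
        exact hg
  rcases key _ _ (glue_eq_closure S1 S2 l m) z hz with ⟨x, hx, rfl⟩ | ⟨x, hx, rfl⟩
  · exact Or.inl ⟨x, hx, rfl⟩
  · exact Or.inr ⟨x, hx, rfl⟩

theorem mul_mem' (S : AddSubmonoid ℕ) {x : ℕ} (hx : x ∈ S) (k : ℕ) : k * x ∈ S := by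
  rw [← smul_eq_mul]
  exact S.nsmul_mem hx k

/-- multiples of atoms are atoms of the gluing -/
theorem atom_left {S1 S2 : AddSubmonoid ℕ} {l m : ℕ} (hl : l ∈ S1) (hl' : l ∉ atoms S1)
    (hm0 : m ≠ 0) (hl0 : l ≠ 0) (hlm : Nat.Coprime l m) {x : ℕ} (hx : x ∈ atoms S1) :
    m * x ∈ atoms (glue S1 S2 l m) := by
  refine ⟨⟨x, hx.1, 0, S2.zero_mem, by simp⟩, Nat.mul_ne_zero hm0 hx.2.1, ?_⟩
  rintro _ ⟨u, hu, v, hv, rfl⟩ _ ⟨u', hu', v', hv', rfl⟩ h
  have h1 : l * (v + v') + m * (u + u') = m * x := by rw [← h]; ring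
  have h2 : m ∣ l * (v + v') := by
    have : l * (v + v') = m * x - m * (u + u') := by omega
    rw [this, ← Nat.mul_sub]
    exact dvd_mul_right _ _
  obtain ⟨w, hw⟩ := hlm.symm.dvd_of_dvd_mul_left h2
  have h3 : x = u + u' + l * w := by
    apply Nat.eq_of_mul_eq_mul_left (Nat.pos_of_ne_zero hm0)
    rw [← h1, hw]
    ring
  rcases Nat.eq_zero_or_pos w with rfl | hwp
  · rw [mul_zero, add_zero] at h3
    rw [mul_zero] at hw
    have hv0 : v = 0 := by omega
    have hv0' : v' = 0 := by omega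
    rcases hx.2.2 u hu u' hu' h3.symm with h4 | h4
    · left
      rw [h4, hv0, mul_zero, mul_zero, add_zero]
    · right
      rw [h4, hv0', mul_zero, mul_zero, add_zero]
  · exfalso
    obtain ⟨w', rfl⟩ : ∃ w', w = w' + 1 := ⟨w - 1, by omega⟩
    have h5 : l + (u + u' + l * w') = x := by
      rw [h3]
      ring
    rcases hx.2.2 l hl (u + u' + l * w') (S1.add_mem (S1.add_mem hu hu')
      (by rw [mul_comm]; exact mul_mem' S1 hl w')) h5 with h6 | h6
    · exact hl0 h6
    · rw [h6, add_zero] at h5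
      exact hl' (h5 ▸ hx)

theorem atom_right {S1 S2 : AddSubmonoid ℕ} {l m : ℕ} (hm : m ∈ S2) (hm' : m ∉ atoms S2)
    (hm0 : m ≠ 0) (hl0 : l ≠ 0) (hlm : Nat.Coprime l m) {x : ℕ} (hx : x ∈ atoms S2) :
    l * x ∈ atoms (glue S1 S2 l m) := by
  rw [glue_comm]
  exact atom_left hm hm' hl0 hm0 hlm.symm hx

theorem atoms_disj {S1 S2 : AddSubmonoid ℕ} {l m : ℕ} (hl : l ∈ S1) (hl' : l ∉ atoms S1)
    (hm0 : m ≠ 0) (hl0 : l ≠ 0) (hlm : Nat.Coprime l m) {x y : ℕ} (hx : x ∈ atoms S1)
    (hy : y ∈ atoms S2) : m * x ≠ l * y := by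
  intro h
  have h1 : l ∣ m * x := ⟨y, h⟩
  obtain ⟨w, rfl⟩ := hlm.dvd_of_dvd_mul_left h1
  rcases w with _ | w
  · exact hx.2.1 (mul_zero _)
  · have h2 : l + l * w = l * (w + 1) := by ring
    rcases hx.2.2 l hl (l * w) (by rw [mul_comm]; exact mul_mem' S1 hl w) h2 with h3 | h3
    · exact hl0 h3
    · rw [h3, add_zero] at h2
      exact hl' (h2 ▸ hx)

/-- **The quotient of a gluing.** -/
theorem quot_glue {S1 S2 T1 T2 : AddSubmonoid ℕ} {g1 g2 a b : ℕ} (hg1 : 0 < g1) (hg2 : 0 < g2)
    (ha : 0 < a) (hb : 0 < b)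
    (h1 : ∀ x, x ∈ T1 ↔ g1 * x ∈ S1) (h2 : ∀ x, x ∈ T2 ↔ g2 * x ∈ S2) (hbT : b ∈ T1)
    (hT2 : ∀ x, a ≤ x → x ∈ T2) (hT1 : ∀ x, a ≤ x → ∃ y ∈ T1, x = b + y)
    (hcop : Nat.Coprime (b * g1) (a * g2)) (x : ℕ) :
    g1 * g2 * (a + b) * x ∈ glue S1 S2 (b * g1) (a * g2) ↔
      (x ∈ T1 ∧ x ∈ T2) ∨ ∃ y ∈ T1, x = b + y := by
  constructor
  · rintro ⟨s1, hs1, s2, hs2, h⟩
    have hc1 : Nat.Coprime g1 (a * g2) := Nat.Coprime.coprime_dvd_left (dvd_mul_left g1 b) hcop
    have hc2 : Nat.Coprime g2 (b * g1) := (Nat.Coprime.coprime_dvd_right (dvd_mul_left g2 a) hcop).symm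
    have hd1 : g1 ∣ a * g2 * s1 := by
      have h3 : a * g2 * s1 = g1 * g2 * (a + b) * x - b * g1 * s2 := by omega
      rw [h3]
      exact Nat.dvd_sub ⟨g2 * (a + b) * x, by ring⟩ ⟨b * s2, by ring⟩
    have hd2 : g2 ∣ b * g1 * s2 := by
      have h3 : b * g1 * s2 = g1 * g2 * (a + b) * x - a * g2 * s1 := by omega
      rw [h3]
      exact Nat.dvd_sub ⟨g1 * (a + b) * x, by ring⟩ ⟨a * s1, by ring⟩
    obtain ⟨u1, rfl⟩ := hc1.dvd_of_dvd_mul_left hd1
    obtain ⟨u2, rfl⟩ := hc2.dvd_of_dvd_mul_left hd2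
    have hu1 : u1 ∈ T1 := (h1 u1).2 hs1
    have hu2 : u2 ∈ T2 := (h2 u2).2 hs2
    have h4 : (a + b) * x = a * u1 + b * u2 := by
      apply Nat.eq_of_mul_eq_mul_left (Nat.mul_pos hg1 hg2)
      calc g1 * g2 * ((a + b) * x) = g1 * g2 * (a + b) * x := by ring
        _ = _ := h
        _ = _ := by ring
    have hab : Nat.Coprime a b :=
      (Nat.Coprime.coprime_dvd_left (dvd_mul_right b g1)
        (Nat.Coprime.coprime_dvd_right (dvd_mul_right a g2) hcop)).symm
    rcases le_or_gt x u2 with hx | hx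
    · -- u2 = x + j a
      obtain ⟨w, rfl⟩ := Nat.exists_eq_add_of_le hx
      have h5 : a * x = a * u1 + b * w := by
        have : (a + b) * x = a * x + b * x := by ring
        have : b * (x + w) = b * x + b * w := by ring
        omega
      have h6 : a ∣ b * w := by
        have : b * w = a * x - a * u1 := by omega
        rw [this, ← Nat.mul_sub]
        exact dvd_mul_right _ _
      obtain ⟨j, rfl⟩ := hab.dvd_of_dvd_mul_left h6
      have h7 : x = u1 + b * j := by
        apply Nat.eq_of_mul_eq_mul_left ha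
        rw [h5]
        ring
      rcases j with _ | j
      · left
        rw [mul_zero, add_zero] at h7 hu2
        exact ⟨h7 ▸ hu1, hu2⟩
      · right
        refine ⟨u1 + j * b, T1.add_mem hu1 (mul_mem' T1 hbT j), ?_⟩
        rw [h7]
        ring
    · -- u2 < x
      right
      apply hT1
      obtain ⟨w, rfl⟩ := Nat.exists_eq_add_of_lt hx
      have h5 : a * (u2 + w + 1) + b * (w + 1) = a * u1 := by
        have e1 : (a + b) * (u2 + w + 1) = a * (u2 + w + 1) + b * (w + 1) + b * u2 := by ring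
        omega
      have h6 : a ∣ b * (w + 1) := by
        have : b * (w + 1) = a * u1 - a * (u2 + w + 1) := by omega
        rw [this, ← Nat.mul_sub]
        exact dvd_mul_right _ _
      have h7 := Nat.le_of_dvd (by omega) (hab.dvd_of_dvd_mul_left h6)
      omega
  · rintro (⟨hx1, hx2⟩ | ⟨y, hy, rfl⟩)
    · exact ⟨g1 * x, (h1 x).1 hx1, g2 * x, (h2 x).1 hx2, by ring⟩
    · exact ⟨g1 * y, (h1 y).1 hy, g2 * (b + y + a), (h2 _).1 (hT2 _ (by omega)), by ring⟩

/-- an auxiliary number -/
theorem exists_aux {g N : ℕ} (h : Nat.Coprime g N) (hN : 0 < N) (B : ℕ) :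
    ∃ k, B ≤ k ∧ N ∣ g * k + 1 := by
  obtain ⟨k0, hk0⟩ : ∃ k0 : ℕ, N ∣ g * k0 + 1 := by
    by_cases hN1 : N = 1
    · exact ⟨0, by rw [hN1]; exact one_dvd _⟩
    · obtain ⟨m, -, hm⟩ := Nat.exists_mul_mod_eq_one_of_coprime h (by omega)
      refine ⟨m * (N - 1), ?_⟩
      have h1 : g * (m * (N - 1)) + 1 ≡ 0 [MOD N] := by
        have h2 : g * m ≡ 1 [MOD N] := by
          rw [Nat.ModEq, hm, Nat.mod_eq_of_lt (by omega)]
        have h3 : g * m * (N - 1) + 1 ≡ 1 * (N - 1) + 1 [MOD N] := (h2.mul_right _).add_right _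
        have h4 : 1 * (N - 1) + 1 = N := by omega
        rw [h4] at h3
        rw [← mul_assoc]
        exact h3.trans (by rw [Nat.ModEq, Nat.mod_self, Nat.zero_mod])
      exact (Nat.modEq_zero_iff_dvd).1 h1
  refine ⟨k0 + N * B, ?_, ?_⟩
  · have : B ≤ N * B := Nat.le_mul_of_pos_left _ hN
    omega
  · have : g * (k0 + N * B) + 1 = (g * k0 + 1) + N * (g * B) := by ring
    rw [this]
    exact dvd_add hk0 (dvd_mul_right _ _)

/-- the property proved by induction; `good` is a property of semigroups preserved by gluing -/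
def PP (good : AddSubmonoid ℕ → Prop) (T : AddSubmonoid ℕ) : Prop :=
  ∀ N, 0 < N → ∃ S g, good S ∧ 0 < g ∧ Nat.Coprime g N ∧ (∀ x, x ∈ T ↔ g * x ∈ S) ∧
    ∀ x, g * x ∉ atoms S

section

variable {good : AddSubmonoid ℕ → Prop} (hN : good ⊤)
  (hglue : ∀ S1 S2 l m, good S1 → good S2 → l ∈ S1 → l ∉ atoms S1 → m ∈ S2 → m ∉ atoms S2 →
    l ≠ 0 → m ≠ 0 → Nat.Coprime l m → good (glue S1 S2 l m))

include hglue

/-- **The operation.** -/
theorem PP_op {T1 T2 T : AddSubmonoid ℕ} {b B : ℕ} (hb : 0 < b) (hbT : b ∈ T1)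
    (hB1 : ∀ x, B ≤ x → x ∈ T1) (hB2 : ∀ x, B ≤ x → x ∈ T2) (h1 : PP good T1) (h2 : PP good T2)
    (hT : ∀ x, x ∈ T ↔ (x ∈ T1 ∧ x ∈ T2) ∨ ∃ y ∈ T1, x = b + y) : PP good T := by
  intro N hN0
  obtain ⟨S1, g1, hS1, hg1, hc1, hq1, ha1⟩ := h1 N hN0
  obtain ⟨S2, g2, hS2, hg2, hc2, hq2, ha2⟩ := h2 (N * (b * g1))
    (Nat.mul_pos hN0 (Nat.mul_pos hb hg1))
  obtain ⟨k, hk, l, hl⟩ := exists_aux hc1 hN0 (B + b)
  obtain ⟨a, ha⟩ : ∃ a, a = 1 + b * g1 * k := ⟨_, rfl⟩
  have hka : k ≤ a := by
    rw [ha]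
    have : k ≤ b * g1 * k := Nat.le_mul_of_pos_left _ (Nat.mul_pos hb hg1)
    omega
  have hca : Nat.Coprime (b * g1) a := by
    rw [ha, Nat.coprime_add_mul_left_right]
    exact Nat.coprime_one_right _
  have hcg : Nat.Coprime (b * g1) g2 := (Nat.Coprime.coprime_mul_left_right hc2).symm
  have hcN2 : Nat.Coprime g2 N := Nat.Coprime.coprime_mul_right_right hc2
  have hcop : Nat.Coprime (b * g1) (a * g2) := Nat.Coprime.mul_right hca hcg
  have hcabN : Nat.Coprime (a + b) N := by
    have h3 : a + b = 1 + N * (l * b) := by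
      rw [ha]
      calc 1 + b * g1 * k + b = 1 + b * (g1 * k + 1) := by ring
        _ = 1 + b * (N * l) := by rw [hl]
        _ = _ := by ring
    rw [h3, Nat.coprime_comm, Nat.coprime_add_mul_left_right]
    exact Nat.coprime_one_right _
  refine ⟨glue S1 S2 (b * g1) (a * g2), g1 * g2 * (a + b), ?_, ?_, ?_, ?_, ?_⟩
  · refine hglue S1 S2 _ _ hS1 hS2 ?_ ?_ ?_ ?_ ?_ ?_ hcop
    · rw [mul_comm]
      exact (hq1 b).1 hbT
    · rw [mul_comm]
      exact ha1 b
    · rw [mul_comm]
      exact (hq2 a).1 (hB2 a (by omega))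
    · rw [mul_comm]
      exact ha2 a
    · exact Nat.mul_ne_zero (by omega) (by omega)
    · exact Nat.mul_ne_zero (by omega) (by omega)
  · exact Nat.mul_pos (Nat.mul_pos hg1 hg2) (by omega)
  · exact Nat.Coprime.mul_left (Nat.Coprime.mul_left hc1 hcN2) hcabN
  · intro x
    rw [hT, quot_glue hg1 hg2 (by omega) hb hq1 hq2 hbT (fun x hx => hB2 x (by omega))
      (fun x hx => ⟨x - b, hB1 _ (by omega), by omega⟩) hcop]
  · intro x hx
    rcases atoms_glue_sub hx with ⟨s, hs, h3⟩ | ⟨s, hs, h3⟩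
    · have hc1' : Nat.Coprime g1 (a * g2) := Nat.Coprime.coprime_dvd_left (dvd_mul_left g1 b) hcop
      have hd : g1 ∣ a * g2 * s := ⟨g2 * (a + b) * x, by rw [← h3]; ring⟩
      obtain ⟨u, rfl⟩ := hc1'.dvd_of_dvd_mul_left hd
      exact ha1 u hs
    · have hc2' : Nat.Coprime g2 (b * g1) :=
        (Nat.Coprime.coprime_dvd_right (dvd_mul_left g2 a) hcop).symm
      have hd : g2 ∣ b * g1 * s := ⟨g1 * (a + b) * x, by rw [← h3]; ring⟩
      obtain ⟨u, rfl⟩ := hc2'.dvd_of_dvd_mul_left hd
      exact ha2 u hs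

end

/-- `U` together with all the integers that are at least `c` -/
def tr (c : ℕ) (U : AddSubmonoid ℕ) : AddSubmonoid ℕ where
  carrier := {x | x ∈ U ∨ c ≤ x}
  zero_mem' := Or.inl U.zero_mem
  add_mem' := by
    rintro x y (hx | hx) (hy | hy)
    · exact Or.inl (U.add_mem hx hy)
    · exact Or.inr (by omega)
    · exact Or.inr (by omega)
    · exact Or.inr (by omega)

theorem mem_tr {c : ℕ} {U : AddSubmonoid ℕ} {x : ℕ} : x ∈ tr c U ↔ x ∈ U ∨ c ≤ x := Iff.rfl

theorem atoms_top : atoms ⊤ = {1} := by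
  ext n
  constructor
  · rintro ⟨-, h0, h⟩
    by_contra h1
    have h1' : n ≠ 1 := h1
    rcases h 1 (AddSubmonoid.mem_top _) (n - 1) (AddSubmonoid.mem_top _) (by omega) with h2 | h2
    · exact absurd h2 one_ne_zero
    · omega
  · rintro rfl
    exact ⟨AddSubmonoid.mem_top _, one_ne_zero, fun a _ b _ h => by omega⟩

section

variable {good : AddSubmonoid ℕ → Prop} (hN : good ⊤)
  (hglue : ∀ S1 S2 l m, good S1 → good S2 → l ∈ S1 → l ∉ atoms S1 → m ∈ S2 → m ∉ atoms S2 →
    l ≠ 0 → m ≠ 0 → Nat.Coprime l m → good (glue S1 S2 l m))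

include hN hglue

/-- the semigroups `{0} ∪ [m, ∞)` -/
theorem PP_base (m : ℕ) (hm : 0 < m) : PP good (tr m ⊥) := by
  intro N hN0
  obtain ⟨D, hD⟩ : ∃ D, D = 1 + m * N := ⟨_, rfl⟩
  have hmN : m ≤ m * N := Nat.le_mul_of_pos_right _ hN0
  have hcm : Nat.Coprime D m := by
    rw [hD, Nat.coprime_comm, Nat.coprime_add_mul_left_right]
    exact Nat.coprime_one_right _
  have hcN : Nat.Coprime D N := by
    rw [hD, Nat.coprime_comm, Nat.coprime_add_mul_right_right]
    exact Nat.coprime_one_right _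
  by_cases hm1 : m = 1
  · subst hm1
    refine ⟨⊤, D, hN, by omega, hcN, fun x => ⟨fun _ => AddSubmonoid.mem_top _, fun _ => ?_⟩, ?_⟩
    · rw [mem_tr]
      by_cases hx : x = 0
      · exact Or.inl hx
      · exact Or.inr (by omega)
    · intro x hx
      rw [atoms_top] at hx
      have hx' : D * x = 1 := hx
      have := Nat.eq_one_of_mul_eq_one_right hx'
      omega
  · have hcc : Nat.Coprime (m + D) m := by
      rw [Nat.coprime_self_add_left]
      exact hcm
    have hg := hglue ⊤ ⊤ (m + D) m hN hN (AddSubmonoid.mem_top _)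
      (by rw [atoms_top]; show ¬ (m + D = 1); omega) (AddSubmonoid.mem_top _)
      (by rw [atoms_top]; exact hm1) (by omega) (by omega) hcc
    refine ⟨glue ⊤ ⊤ (m + D) m, D, hg, by omega, hcN, fun x => ⟨fun hx => ?_, ?_⟩, ?_⟩
    · rw [mem_tr] at hx
      rcases hx with hx | hx
      · have hx' : x = 0 := hx
        rw [hx', mul_zero]
        exact AddSubmonoid.zero_mem _
      · -- x = m l + j
        have h1 := Nat.div_add_mod x m
        have h2 := Nat.mod_lt x hm
        have h3 : 1 ≤ x / m := (Nat.one_le_div_iff hm).2 hx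
        have h4 : x % m ≤ D * (x / m) := by
          have : D * 1 ≤ D * (x / m) := Nat.mul_le_mul_left D h3
          omega
        refine ⟨D * (x / m) - x % m, AddSubmonoid.mem_top _, x % m, AddSubmonoid.mem_top _, ?_⟩
        rw [Nat.mul_sub]
        have h5 : m * (x % m) ≤ m * (D * (x / m)) := Nat.mul_le_mul_left m h4
        have h6 : D * x = m * (D * (x / m)) + D * (x % m) := by
          conv_lhs => rw [← h1]
          ring
        have h7 : (m + D) * (x % m) = m * (x % m) + D * (x % m) := by ring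
        omega
    · rintro ⟨i, -, j, -, h⟩
      rw [mem_tr]
      by_contra hcon
      push Not at hcon
      obtain ⟨hx0, hxm⟩ := hcon
      have hx0' : x ≠ 0 := hx0
      have h1 : (m + D) * j = m * j + D * j := by ring
      have hjx : j ≤ x := by
        by_contra h2
        have h3 : D * x < D * j := (Nat.mul_lt_mul_left (by omega)).2 (by omega)
        omega
      obtain ⟨w, rfl⟩ := Nat.exists_eq_add_of_le hjx
      have h3 : D * w = m * (i + j) := by
        have e1 : D * (j + w) = D * j + D * w := by ring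
        have e2 : m * (i + j) = m * i + m * j := by ring
        omega
      have h4 : m ∣ D * w := ⟨_, h3⟩
      have h5 : m ∣ w := hcm.symm.dvd_of_dvd_mul_left h4
      rcases Nat.eq_zero_or_pos w with rfl | hw
      · rw [mul_zero] at h3
        have h6 : i + j = 0 := by
          rcases Nat.mul_eq_zero.1 h3.symm with h7 | h7
          · omega
          · exact h7
        omega
      · have := Nat.le_of_dvd hw h5
        omega
    · intro x hx
      rcases atoms_glue_sub hx with ⟨s, hs, h3⟩ | ⟨s, hs, h3⟩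
      · rw [atoms_top] at hs
        have hs' : s = 1 := hs
        rw [hs', mul_one] at h3
        rcases x with _ | x
        · omega
        · have : D * 1 ≤ D * (x + 1) := Nat.mul_le_mul_left D (by omega)
          omega
      · rw [atoms_top] at hs
        have hs' : s = 1 := hs
        rw [hs', mul_one] at h3
        have h4 : D ∣ m := by
          have : D ∣ m + D := ⟨x, h3.symm⟩
          exact (Nat.dvd_add_left (dvd_refl D)).1 this
        have := Nat.le_of_dvd hm h4
        omega

/-- **All numerical semigroups.** -/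
theorem PP_all (c : ℕ) : ∀ T : AddSubmonoid ℕ, (∀ x, c ≤ x → x ∈ T) → PP good T := by
  classical
  induction c with
  | zero =>
    intro T hT
    have h1 : T = tr 1 ⊥ := by
      ext x
      rw [mem_tr]
      refine ⟨fun _ => ?_, fun _ => hT x (Nat.zero_le x)⟩
      by_cases hx : x = 0
      · exact Or.inl hx
      · exact Or.inr (by omega)
    rw [h1]
    exact PP_base hN hglue 1 one_pos
  | succ c ih =>
    have key : ∀ G : Finset ℕ, PP good (tr (c + 1) (AddSubmonoid.closure (G : Set ℕ))) := by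
      intro G
      induction G using Finset.induction_on with
      | empty =>
        rw [Finset.coe_empty, AddSubmonoid.closure_empty]
        exact PP_base hN hglue (c + 1) (Nat.succ_pos c)
      | insert b G hb ihG =>
        by_cases hb0 : b = 0
        · subst hb0
          have h1 : AddSubmonoid.closure ((insert 0 G : Finset ℕ) : Set ℕ) =
              AddSubmonoid.closure (G : Set ℕ) := by
            apply le_antisymm
            · rw [AddSubmonoid.closure_le]
              intro x hx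
              rw [Finset.coe_insert] at hx
              rcases hx with rfl | hx
              · exact AddSubmonoid.zero_mem _
              · exact AddSubmonoid.subset_closure hx
            · apply AddSubmonoid.closure_mono
              rw [Finset.coe_insert]
              exact Set.subset_insert _ _
          rw [h1]
          exact ihG
        · obtain ⟨U, hU⟩ : ∃ U, U = AddSubmonoid.closure ((insert b G : Finset ℕ) : Set ℕ) :=
            ⟨_, rfl⟩
          obtain ⟨U', hU'⟩ : ∃ U', U' = AddSubmonoid.closure (G : Set ℕ) := ⟨_, rfl⟩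
          rw [← hU]
          rw [← hU'] at ihG
          have hbU : b ∈ U := by
            rw [hU]
            exact AddSubmonoid.subset_closure (by rw [Finset.coe_insert]; exact Set.mem_insert _ _)
          have hU'U : U' ≤ U := by
            rw [hU, hU']
            apply AddSubmonoid.closure_mono
            rw [Finset.coe_insert]
            exact Set.subset_insert _ _
          have hdec : ∀ x ∈ U, x ∈ U' ∨ ∃ y ∈ U, x = b + y := by
            intro x hx
            rw [hU] at hx
            induction hx using AddSubmonoid.closure_induction with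
            | mem x hx =>
              rw [Finset.coe_insert] at hx
              rcases hx with rfl | hx
              · exact Or.inr ⟨0, U.zero_mem, by omega⟩
              · exact Or.inl (by rw [hU']; exact AddSubmonoid.subset_closure hx)
            | zero => exact Or.inl U'.zero_mem
            | add x y hxc hyc hx hy =>
              rw [← hU] at hxc hyc
              rcases hx with hx | ⟨x', hx', rfl⟩
              · rcases hy with hy | ⟨y', hy', rfl⟩
                · exact Or.inl (U'.add_mem hx hy)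
                · exact Or.inr ⟨x + y', U.add_mem hxc hy', by omega⟩
              · exact Or.inr ⟨x' + y, U.add_mem hx' hyc, by omega⟩
          refine PP_op hglue (T1 := tr c U) (T2 := tr (c + 1) U') (b := b) (B := c + 1)
            (Nat.pos_of_ne_zero hb0) (Or.inl hbU) (fun x hx => Or.inr (by omega))
            (fun x hx => Or.inr hx) (ih _ fun x hx => Or.inr hx) ihG ?_
          intro x
          rw [mem_tr]
          constructor
          · rintro (hx | hx)
            · rcases hdec x hx with h1 | ⟨y, hy, rfl⟩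
              · exact Or.inl ⟨Or.inl hx, Or.inl h1⟩
              · exact Or.inr ⟨y, Or.inl hy, rfl⟩
            · exact Or.inl ⟨Or.inr (by omega), Or.inr hx⟩
          · rintro (⟨_, hx | hx⟩ | ⟨y, hy | hy, rfl⟩)
            · exact Or.inl (hU'U hx)
            · exact Or.inr hx
            · exact Or.inl (U.add_mem hbU hy)
            · exact Or.inr (by omega)
    intro T hT
    have h1 : T = tr (c + 1) (AddSubmonoid.closure
        (((Finset.range (c + 1)).filter (fun x => x ∈ T) : Finset ℕ) : Set ℕ)) := by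
      ext x
      rw [mem_tr]
      constructor
      · intro hx
        by_cases h2 : c + 1 ≤ x
        · exact Or.inr h2
        · left
          apply AddSubmonoid.subset_closure
          rw [Finset.mem_coe, Finset.mem_filter, Finset.mem_range]
          exact ⟨by omega, hx⟩
      · rintro (hx | hx)
        · have h3 : AddSubmonoid.closure
            (((Finset.range (c + 1)).filter (fun x => x ∈ T) : Finset ℕ) : Set ℕ) ≤ T := by
            rw [AddSubmonoid.closure_le]
            intro y hy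
            rw [Finset.mem_coe, Finset.mem_filter] at hy
            exact hy.2
          exact h3 hx
        · exact hT x hx
    rw [h1]
    exact key _

end

end Pool.Agent.X317.NSQ
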