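import Mathlib
import Pool.Agent.X317.NSQ.Core

/-!
# Presentations and gluings
-/

set_option autoImplicit false
set_option linter.all false

namespace Pool.Agent.X317.NSQ

/-- `σ` generates the kernel congruence of `φ`. -/
def PresH {M : Type*} [AddCommMonoid M] (φ : M →+ ℕ) (σ : Set (M × M)) : Prop :=
  ∀ a b, addConGen (fun x y => (x, y) ∈ σ) a b ↔ φ a = φ b

section

variable {M M' M1 M2 : Type*} [AddCommMonoid M] [AddCommMonoid M'] [AddCommMonoid M1] [AddCommMonoid M2]

/-- mapping a generated congruence -/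
theorem gen_map {σ : Set (M × M)} {c : AddCon M'} (f : M →+ M')
    (h : ∀ x y, (x, y) ∈ σ → c (f x) (f y)) {a b : M}
    (hab : addConGen (fun x y => (x, y) ∈ σ) a b) : c (f a) (f b) := by
  let c' : AddCon M :=
    { r := fun x y => c (f x) (f y)
      iseqv := ⟨fun x => c.refl _, fun h => c.symm h, fun h h' => c.trans h h'⟩
      add' := fun {w x y z} h h' => by
        rw [f.map_add, f.map_add]
        exact c.add h h' }
  have h1 : addConGen (fun x y => (x, y) ∈ σ) ≤ c' := AddCon.addConGen_le.2 h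
  exact h1 hab

theorem gen_of {σ : Set (M × M)} {x y : M} (h : (x, y) ∈ σ) :
    addConGen (fun x y => (x, y) ∈ σ) x y := AddConGen.Rel.of x y h

theorem presH_equiv (E : M ≃+ M') (φ : M →+ ℕ) (φ' : M' →+ ℕ) (hφ : ∀ x, φ' (E x) = φ x)
    {σ : Set (M × M)} (h : PresH φ σ) : PresH φ' ((fun z : M × M => (E z.1, E z.2)) '' σ) := by
  intro a b
  constructor
  · intro hab
    have h1 : ∀ x y, (x, y) ∈ ((fun z : M × M => (E z.1, E z.2)) '' σ) →
        addConGen (fun x y => (x, y) ∈ σ) (E.symm x) (E.symm y) := by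
      rintro x y ⟨⟨u, v⟩, huv, h2⟩
      have h3 : E u = x := congrArg Prod.fst h2
      have h4 : E v = y := congrArg Prod.snd h2
      rw [← h3, ← h4, E.symm_apply_apply, E.symm_apply_apply]
      exact gen_of huv
    have h2 := gen_map (E.symm : M' →+ M) h1 hab
    have h3 := (h _ _).1 h2
    have h4 : ∀ x, φ (E.symm x) = φ' x := fun x => by rw [← hφ, E.apply_symm_apply]
    have h5 : φ (E.symm a) = φ (E.symm b) := h3
    rw [h4, h4] at h5
    exact h5
  · intro hab
    have h4 : ∀ x, φ (E.symm x) = φ' x := fun x => by rw [← hφ, E.apply_symm_apply]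
    rw [← h4, ← h4] at hab
    have h5 := (h _ _).2 hab
    have h1 : ∀ x y, (x, y) ∈ σ →
        addConGen (fun x y => (x, y) ∈ ((fun z : M × M => (E z.1, E z.2)) '' σ)) (E x) (E y) := by
      intro x y hxy
      exact gen_of ⟨(x, y), hxy, rfl⟩
    have h6 := gen_map (E : M →+ M') h1 h5
    have h7 : ∀ x, (E : M →+ M') (E.symm x) = x := fun x => E.apply_symm_apply x
    rw [h7, h7] at h6
    exact h6

/-- the homomorphism of a gluing -/
def gluH (φ1 : M1 →+ ℕ) (φ2 : M2 →+ ℕ) (l m : ℕ) : M1 × M2 →+ ℕ where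
  toFun z := m * φ1 z.1 + l * φ2 z.2
  map_zero' := by simp
  map_add' := by
    intro x y
    simp only [Prod.fst_add, Prod.snd_add, map_add]
    ring

theorem gluH_apply (φ1 : M1 →+ ℕ) (φ2 : M2 →+ ℕ) (l m : ℕ) (z : M1 × M2) :
    gluH φ1 φ2 l m z = m * φ1 z.1 + l * φ2 z.2 := rfl

/-- the relations of a gluing -/
def gluR (σ1 : Set (M1 × M1)) (σ2 : Set (M2 × M2)) (p : M1) (q : M2) :
    Set ((M1 × M2) × (M1 × M2)) :=
  ((fun z : M1 × M1 => (((z.1, 0) : M1 × M2), ((z.2, 0) : M1 × M2))) '' σ1 ∪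
    (fun z : M2 × M2 => (((0, z.1) : M1 × M2), ((0, z.2) : M1 × M2))) '' σ2) ∪
    {((p, 0), (0, q))}

theorem presH_glue {φ1 : M1 →+ ℕ} {φ2 : M2 →+ ℕ} {σ1 : Set (M1 × M1)} {σ2 : Set (M2 × M2)}
    (h1 : PresH φ1 σ1) (h2 : PresH φ2 σ2) {l m : ℕ} {p : M1} {q : M2} (hp : φ1 p = l)
    (hq : φ2 q = m) (hlm : Nat.Coprime l m) (hl0 : 0 < l) (hm0 : 0 < m) :
    PresH (gluH φ1 φ2 l m) (gluR σ1 σ2 p q) := by
  have hL : ∀ x y : M1, φ1 x = φ1 y →
      addConGen (fun x y => (x, y) ∈ gluR σ1 σ2 p q) ((x, 0) : M1 × M2) (y, 0) := by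
    intro x y hxy
    exact gen_map (AddMonoidHom.inl M1 M2)
      (fun u v huv => gen_of (Or.inl (Or.inl ⟨(u, v), huv, rfl⟩))) ((h1 x y).2 hxy)
  have hR : ∀ x y : M2, φ2 x = φ2 y →
      addConGen (fun x y => (x, y) ∈ gluR σ1 σ2 p q) ((0, x) : M1 × M2) (0, y) := by
    intro x y hxy
    exact gen_map (AddMonoidHom.inr M1 M2)
      (fun u v huv => gen_of (Or.inl (Or.inr ⟨(u, v), huv, rfl⟩))) ((h2 x y).2 hxy)
  have hpq : ∀ w : ℕ, addConGen (fun x y => (x, y) ∈ gluR σ1 σ2 p q)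
      ((w • p, 0) : M1 × M2) (0, w • q) := by
    intro w
    induction w with
    | zero =>
      rw [zero_smul, zero_smul]
      exact AddCon.refl _ _
    | succ w ih =>
      have h3 := AddCon.add _ ih
        (gen_of (σ := gluR σ1 σ2 p q) (x := (p, 0)) (y := (0, q)) (Or.inr rfl))
      rw [Prod.mk_add_mk, Prod.mk_add_mk, add_zero, add_zero, ← succ_nsmul, ← succ_nsmul] at h3
      exact h3
  have aux : ∀ a b : M1 × M2, gluH φ1 φ2 l m a = gluH φ1 φ2 l m b → φ1 b.1 ≤ φ1 a.1 →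
      addConGen (fun x y => (x, y) ∈ gluR σ1 σ2 p q) a b := by
    rintro ⟨a1, a2⟩ ⟨b1, b2⟩ hab hle
    rw [gluH_apply, gluH_apply] at hab
    simp only at hab hle
    obtain ⟨d, hd⟩ := Nat.exists_eq_add_of_le hle
    have h3 : φ2 a2 ≤ φ2 b2 := by
      by_contra h4
      have h5 : l * φ2 b2 < l * φ2 a2 := (Nat.mul_lt_mul_left hl0).2 (by omega)
      have h6 : m * φ1 b1 ≤ m * φ1 a1 := Nat.mul_le_mul_left m hle
      omega
    obtain ⟨e, he⟩ := Nat.exists_eq_add_of_le h3
    have h4 : m * d = l * e := by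
      rw [hd, he, mul_add, mul_add] at hab
      omega
    obtain ⟨w, rfl⟩ := hlm.dvd_of_dvd_mul_left (⟨e, h4⟩ : l ∣ m * d)
    have h5 : e = m * w := by
      apply Nat.eq_of_mul_eq_mul_left hl0
      rw [← h4]
      ring
    subst h5
    have h6 : φ1 a1 = φ1 (b1 + w • p) := by
      rw [map_add, map_nsmul, hp, hd, smul_eq_mul, mul_comm w]
    have h7 : φ2 b2 = φ2 (w • q + a2) := by
      rw [map_add, map_nsmul, hq, he, smul_eq_mul, mul_comm w, add_comm]
    have e1 := AddCon.add _ (hL _ _ h6) (AddCon.refl _ ((0, a2) : M1 × M2))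
    have e2 := AddCon.add _ (AddCon.refl _ ((b1, 0) : M1 × M2))
      (AddCon.add _ (hpq w) (AddCon.refl _ ((0, a2) : M1 × M2)))
    have e3 := AddCon.add _ (AddCon.refl _ ((b1, 0) : M1 × M2)) (hR _ _ h7.symm)
    simp only [Prod.mk_add_mk, add_zero, zero_add] at e1 e2 e3
    exact AddCon.trans _ e1 (AddCon.trans _ e2 e3)
  intro a b
  constructor
  · intro hab
    have h3 : addConGen (fun x y => (x, y) ∈ gluR σ1 σ2 p q) ≤ AddCon.ker (gluH φ1 φ2 l m) := by
      rw [AddCon.addConGen_le]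
      rintro x y ((⟨⟨u, v⟩, huv, h4⟩ | ⟨⟨u, v⟩, huv, h4⟩) | h4)
      · have h5 : ((u, 0) : M1 × M2) = x := congrArg Prod.fst h4
        have h6 : ((v, 0) : M1 × M2) = y := congrArg Prod.snd h4
        rw [← h5, ← h6]
        show gluH φ1 φ2 l m (u, 0) = gluH φ1 φ2 l m (v, 0)
        rw [gluH_apply, gluH_apply, (h1 u v).1 (gen_of huv)]
      · have h5 : ((0, u) : M1 × M2) = x := congrArg Prod.fst h4
        have h6 : ((0, v) : M1 × M2) = y := congrArg Prod.snd h4
        rw [← h5, ← h6]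
        show gluH φ1 φ2 l m (0, u) = gluH φ1 φ2 l m (0, v)
        rw [gluH_apply, gluH_apply, (h2 u v).1 (gen_of huv)]
      · have h5 : x = (p, 0) := congrArg Prod.fst h4
        have h6 : y = (0, q) := congrArg Prod.snd h4
        rw [h5, h6]
        show gluH φ1 φ2 l m (p, 0) = gluH φ1 φ2 l m (0, q)
        rw [gluH_apply, gluH_apply]
        simp only [map_zero, hp, hq]
        ring
    exact h3 hab
  · intro hab
    rcases le_total (φ1 b.1) (φ1 a.1) with h3 | h3
    · exact aux a b hab h3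
    · exact AddCon.symm _ (aux b a hab.symm h3)

end

/-- the evaluation at the generators -/
noncomputable def lcH {I : Type*} (n : I → ℕ) : (I →₀ ℕ) →+ ℕ :=
  (Finsupp.linearCombination ℕ n).toAddMonoidHom

theorem lcH_single {I : Type*} (n : I → ℕ) (i : I) (c : ℕ) :
    lcH n (Finsupp.single i c) = c * n i := by
  show Finsupp.linearCombination ℕ n (Finsupp.single i c) = c * n i
  rw [Finsupp.linearCombination_single, smul_eq_mul]

theorem lcH_apply {I : Type*} [Fintype I] (n : I → ℕ) (a : I →₀ ℕ) :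
    lcH n a = ∑ i, a i * n i := by
  show Finsupp.linearCombination ℕ n a = ∑ i, a i * n i
  rw [Finsupp.linearCombination_apply,
    Finsupp.sum_fintype a (fun i c => c • n i) (fun i => zero_smul ℕ (n i))]
  rfl

/-- **The number of relations.** -/
theorem lower {I : Type*} [Fintype I] (n : I → ℕ) (i0 : I) (h0 : n i0 ≠ 0)
    (τ : Finset ((I →₀ ℕ) × (I →₀ ℕ))) (h : PresH (lcH n) (τ : Set _)) :
    Fintype.card I ≤ τ.card + 1 := by
  classical
  let cast : (I →₀ ℕ) →+ (I → ℚ) :=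
    { toFun := fun a i => (a i : ℚ)
      map_zero' := by
        funext i
        simp
      map_add' := fun a b => by
        funext i
        simp }
  have hcast : ∀ a i, cast a i = (a i : ℚ) := fun a i => rfl
  let W : Submodule ℚ (I → ℚ) :=
    Submodule.span ℚ ((τ.image fun z => cast z.1 - cast z.2 : Finset (I → ℚ)) : Set (I → ℚ))
  let c : AddCon (I →₀ ℕ) :=
    { r := fun x y => cast x - cast y ∈ W
      iseqv := ⟨fun x => by rw [sub_self]; exact W.zero_mem,
        fun {x y} h => by rw [← neg_sub]; exact W.neg_mem h,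
        fun {x y z} h h' => by
          have : cast x - cast z = (cast x - cast y) + (cast y - cast z) := by abel
          rw [this]
          exact W.add_mem h h'⟩
      add' := fun {w x y z} h h' => by
        show cast (w + y) - cast (x + z) ∈ W
        rw [map_add, map_add]
        have : cast w + cast y - (cast x + cast z) = (cast w - cast x) + (cast y - cast z) := by abel
        rw [this]
        exact W.add_mem h h' }
  have hle : addConGen (fun x y => (x, y) ∈ (τ : Set ((I →₀ ℕ) × (I →₀ ℕ)))) ≤ c := by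
    rw [AddCon.addConGen_le]
    intro x y hxy
    show cast x - cast y ∈ W
    exact Submodule.subset_span (Finset.mem_coe.2 (Finset.mem_image.2 ⟨(x, y), hxy, rfl⟩))
  have hW : ∀ i, ((n i0 : ℚ) • (Pi.single i 1 : I → ℚ) - (n i : ℚ) • (Pi.single i0 1 : I → ℚ)) ∈ W := by
    intro i
    have h1 : lcH n (Finsupp.single i (n i0)) = lcH n (Finsupp.single i0 (n i)) := by
      rw [lcH_single, lcH_single, mul_comm]
    have h2 : cast (Finsupp.single i (n i0)) - cast (Finsupp.single i0 (n i)) ∈ W :=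
      hle ((h _ _).2 h1)
    have h3 : ∀ (j : I) (d : ℕ), cast (Finsupp.single j d) = (d : ℚ) • (Pi.single j 1 : I → ℚ) := by
      intro j d
      funext i'
      rw [hcast, Pi.smul_apply, smul_eq_mul, Finsupp.single_apply, Pi.single_apply]
      by_cases h4 : j = i'
      · rw [if_pos h4, if_pos h4.symm, mul_one]
      · rw [if_neg h4, if_neg (Ne.symm h4), mul_zero, Nat.cast_zero]
    rw [h3, h3] at h2
    exact h2
  have htop : W ⊔ Submodule.span ℚ {(Pi.single i0 1 : I → ℚ)} = ⊤ := by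
    rw [eq_top_iff]
    rintro v -
    have h1 : v = ∑ i, v i • (Pi.single i 1 : I → ℚ) := by
      funext j
      rw [Finset.sum_apply, Finset.sum_eq_single j]
      · rw [Pi.smul_apply, Pi.single_eq_same, smul_eq_mul, mul_one]
      · intro i _ hij
        rw [Pi.smul_apply, Pi.single_eq_of_ne (Ne.symm hij), smul_zero]
      · intro hj
        exact absurd (Finset.mem_univ j) hj
    rw [h1]
    refine Submodule.sum_mem _ fun i _ => Submodule.smul_mem _ _ ?_
    have hq : (n i0 : ℚ) ≠ 0 := by exact_mod_cast h0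
    have h2 : (Pi.single i 1 : I → ℚ) = (n i0 : ℚ)⁻¹ • (((n i0 : ℚ) • (Pi.single i 1 : I → ℚ) -
        (n i : ℚ) • (Pi.single i0 1 : I → ℚ)) + (n i : ℚ) • (Pi.single i0 1 : I → ℚ)) := by
      rw [sub_add_cancel, smul_smul, inv_mul_cancel₀ hq, one_smul]
    rw [h2]
    exact Submodule.smul_mem _ _ (Submodule.add_mem _ (Submodule.mem_sup_left (hW i))
      (Submodule.mem_sup_right (Submodule.smul_mem _ _ (Submodule.mem_span_singleton_self _))))
  have h1 : Module.finrank ℚ (I → ℚ) = Fintype.card I := Module.finrank_fintype_fun_eq_card ℚ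
  have h2 : Module.finrank ℚ ↥(W ⊔ Submodule.span ℚ {(Pi.single i0 1 : I → ℚ)}) =
      Fintype.card I := by
    rw [htop, finrank_top, h1]
  have h3 := Submodule.finrank_add_le_finrank_add_finrank W
    (Submodule.span ℚ {(Pi.single i0 1 : I → ℚ)})
  have h4 : Module.finrank ℚ W ≤ τ.card :=
    le_trans (finrank_span_finset_le_card _) Finset.card_image_le
  have h5 : Module.finrank ℚ ↥(Submodule.span ℚ {(Pi.single i0 1 : I → ℚ)}) ≤ 1 := by
    have := finrank_span_finset_le_card (R := ℚ) ({(Pi.single i0 1 : I → ℚ)} : Finset (I → ℚ))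
    rw [Finset.coe_singleton, Finset.card_singleton] at this
    exact this
  omega

/-- a working form of the complete intersection property -/
def CIw (S : AddSubmonoid ℕ) : Prop :=
  ∃ (I : Type) (_ : Fintype I) (n : I → ℕ), Function.Injective n ∧ Set.range n = atoms S ∧
    ∃ σ : Finset ((I →₀ ℕ) × (I →₀ ℕ)), PresH (lcH n) (σ : Set _) ∧ σ.card + 1 ≤ Fintype.card I

/-- complete intersection numerical semigroups -/
def good (S : AddSubmonoid ℕ) : Prop := CIw S ∧ ∃ c, ∀ x, c ≤ x → x ∈ S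

theorem good_top : good ⊤ := by
  classical
  refine ⟨⟨Unit, inferInstance, fun _ => 1, fun _ _ _ => rfl, ?_, ∅, ?_, ?_⟩, 0,
    fun x _ => AddSubmonoid.mem_top x⟩
  · rw [atoms_top]
    ext x
    constructor
    · rintro ⟨_, rfl⟩
      rfl
    · rintro rfl
      exact ⟨(), rfl⟩
  · intro a b
    constructor
    · intro h
      have h1 : addConGen (fun x y => (x, y) ∈ ((∅ : Finset ((Unit →₀ ℕ) × (Unit →₀ ℕ))) : Set _)) ≤
          AddCon.ker (lcH fun _ : Unit => 1) := by
        rw [AddCon.addConGen_le]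
        intro x y hxy
        rw [Finset.coe_empty] at hxy
        exact absurd hxy (Set.notMem_empty _)
      exact h1 h
    · intro h
      have h1 : ∀ a : Unit →₀ ℕ, lcH (fun _ : Unit => 1) a = a () := by
        intro a
        have h2 : a = Finsupp.single () (a ()) := by
          ext
          rw [Finsupp.single_eq_same]
        rw [h2, lcH_single, mul_one, Finsupp.single_eq_same]
      rw [h1, h1] at h
      have h3 : a = b := by
        ext
        exact h
      rw [h3]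
      exact AddCon.refl _ _
  · rw [Finset.card_empty, Fintype.card_unit]

theorem lcH_surj {S : AddSubmonoid ℕ} {I : Type} {n : I → ℕ} (h : Set.range n = atoms S) {x : ℕ}
    (hx : x ∈ S) : ∃ a, lcH n a = x := by
  have h1 := mem_closure_atoms S x hx
  rw [← h] at h1
  induction h1 using AddSubmonoid.closure_induction with
  | mem y hy =>
    obtain ⟨i, rfl⟩ := hy
    exact ⟨Finsupp.single i 1, by rw [lcH_single, one_mul]⟩
  | zero => exact ⟨0, map_zero _⟩
  | add y z hy hz ihy ihz =>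
    rw [h, closure_atoms] at hy hz
    obtain ⟨a, ha⟩ := ihy hy
    obtain ⟨b, hb⟩ := ihz hz
    exact ⟨a + b, by rw [map_add, ha, hb]⟩

theorem cofinite_glue {S1 S2 : AddSubmonoid ℕ} {l m c1 c2 : ℕ} (h1 : ∀ x, c1 ≤ x → x ∈ S1)
    (h2 : ∀ x, c2 ≤ x → x ∈ S2) (hm0 : 0 < m) (hlm : Nat.Coprime l m) (x : ℕ)
    (hx : m * c1 + l * (c2 + m) ≤ x) : x ∈ glue S1 S2 l m := by
  have e0 : l * (c2 + m) = l * c2 + l * m := by ring
  obtain ⟨y, hy⟩ : ∃ y, x = l * c2 + y := ⟨x - l * c2, by omega⟩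
  obtain ⟨j, hjm, hj⟩ : ∃ j, j < m ∧ l * j ≡ y [MOD m] := by
    by_cases hm1 : m = 1
    · subst hm1
      exact ⟨0, by omega, Nat.modEq_one⟩
    · obtain ⟨u, -, hu⟩ := Nat.exists_mul_mod_eq_one_of_coprime hlm (by omega)
      refine ⟨(u * y) % m, Nat.mod_lt _ hm0, ?_⟩
      have h3 : l * u ≡ 1 [MOD m] := by
        rw [Nat.ModEq, hu, Nat.mod_eq_of_lt (by omega)]
      calc l * ((u * y) % m) ≡ l * (u * y) [MOD m] := (Nat.mod_modEq _ _).mul_left _
        _ = (l * u) * y := by ring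
        _ ≡ 1 * y [MOD m] := h3.mul_right _
        _ = y := one_mul y
  have h5 : l * j ≤ l * m := Nat.mul_le_mul_left l hjm.le
  have h6 : l * j ≤ y := by omega
  have h7 : m ∣ y - l * j := (Nat.modEq_iff_dvd' h6).1 hj
  obtain ⟨s, hs⟩ := h7
  refine ⟨s, h1 s ?_, c2 + j, h2 _ (by omega), ?_⟩
  · by_contra h8
    have h9 : m * s < m * c1 := (Nat.mul_lt_mul_left hm0).2 (by omega)
    omega
  · have e1 : l * (c2 + j) = l * c2 + l * j := by ring
    omega

theorem good_glue (S1 S2 : AddSubmonoid ℕ) (l m : ℕ) (h1 : good S1) (h2 : good S2)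
    (hl : l ∈ S1) (hl' : l ∉ atoms S1) (hm : m ∈ S2) (hm' : m ∉ atoms S2) (hl0 : l ≠ 0)
    (hm0 : m ≠ 0) (hlm : Nat.Coprime l m) : good (glue S1 S2 l m) := by
  classical
  obtain ⟨⟨I1, _, n1, hi1, hr1, σ1, hσ1, hc1⟩, c1, hcof1⟩ := h1
  obtain ⟨⟨I2, _, n2, hi2, hr2, σ2, hσ2, hc2⟩, c2, hcof2⟩ := h2
  have ha1 : ∀ i, n1 i ∈ atoms S1 := fun i => hr1 ▸ ⟨i, rfl⟩
  have ha2 : ∀ i, n2 i ∈ atoms S2 := fun i => hr2 ▸ ⟨i, rfl⟩
  refine ⟨⟨I1 ⊕ I2, inferInstance, Sum.elim (fun i => m * n1 i) (fun i => l * n2 i), ?_, ?_, ?_⟩, ?_⟩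
  · rintro (i | i) (j | j) h
    · exact congrArg Sum.inl (hi1 (Nat.eq_of_mul_eq_mul_left (Nat.pos_of_ne_zero hm0) h))
    · exact absurd h (atoms_disj hl hl' hm0 hl0 hlm (ha1 i) (ha2 j))
    · exact absurd h.symm (atoms_disj hl hl' hm0 hl0 hlm (ha1 j) (ha2 i))
    · exact congrArg Sum.inr (hi2 (Nat.eq_of_mul_eq_mul_left (Nat.pos_of_ne_zero hl0) h))
  · ext z
    constructor
    · rintro ⟨i | i, rfl⟩
      · exact atom_left hl hl' hm0 hl0 hlm (ha1 i)
      · exact atom_right hm hm' hm0 hl0 hlm (ha2 i)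
    · intro hz
      rcases atoms_glue_sub hz with ⟨x, hx, rfl⟩ | ⟨x, hx, rfl⟩
      · rw [← hr1] at hx
        obtain ⟨i, rfl⟩ := hx
        exact ⟨Sum.inl i, rfl⟩
      · rw [← hr2] at hx
        obtain ⟨i, rfl⟩ := hx
        exact ⟨Sum.inr i, rfl⟩
  · obtain ⟨p, hp⟩ := lcH_surj hr1 hl
    obtain ⟨q, hq⟩ := lcH_surj hr2 hm
    have h3 := presH_glue hσ1 hσ2 hp hq hlm (Nat.pos_of_ne_zero hl0) (Nat.pos_of_ne_zero hm0)
    let E : (I1 →₀ ℕ) × (I2 →₀ ℕ) ≃+ (I1 ⊕ I2 →₀ ℕ) :=
      Finsupp.sumFinsuppAddEquivProdFinsupp.symm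
    have hEl : ∀ z i, E z (Sum.inl i) = z.1 i := fun z i =>
      Finsupp.sumFinsuppAddEquivProdFinsupp_symm_inl z i
    have hEr : ∀ z i, E z (Sum.inr i) = z.2 i := fun z i =>
      Finsupp.sumFinsuppAddEquivProdFinsupp_symm_inr z i
    have hE : ∀ z, lcH (Sum.elim (fun i => m * n1 i) (fun i => l * n2 i)) (E z) =
        gluH (lcH n1) (lcH n2) l m z := by
      intro z
      rw [lcH_apply, Fintype.sum_sum_type, gluH_apply, lcH_apply, lcH_apply, Finset.mul_sum,
        Finset.mul_sum]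
      congr 1
      · refine Finset.sum_congr rfl fun i _ => ?_
        rw [hEl, Sum.elim_inl]
        ring
      · refine Finset.sum_congr rfl fun i _ => ?_
        rw [hEr, Sum.elim_inr]
        ring
    have h5 := presH_equiv E _ _ hE h3
    refine ⟨((σ1.image (fun z => (((z.1, 0) : (I1 →₀ ℕ) × (I2 →₀ ℕ)), (z.2, 0))) ∪
      σ2.image (fun z => (((0, z.1) : (I1 →₀ ℕ) × (I2 →₀ ℕ)), (0, z.2)))) ∪
      {((p, 0), (0, q))}).image (fun z => (E z.1, E z.2)), ?_, ?_⟩
    · convert h5 using 1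
      unfold gluR
      push_cast
      rfl
    · have h6 : ∀ s : Finset (((I1 →₀ ℕ) × (I2 →₀ ℕ)) × ((I1 →₀ ℕ) × (I2 →₀ ℕ))),
          (s.image (fun z => (E z.1, E z.2))).card ≤ s.card := fun s => Finset.card_image_le
      refine le_trans (Nat.add_le_add_right (le_trans (h6 _) (le_trans (Finset.card_union_le _ _)
        (Nat.add_le_add (le_trans (Finset.card_union_le _ _)
          (Nat.add_le_add Finset.card_image_le Finset.card_image_le)) le_rfl))) 1) ?_
      rw [Finset.card_singleton, Fintype.card_sum]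
      omega
  · exact ⟨_, cofinite_glue hcof1 hcof2 (Nat.pos_of_ne_zero hm0) hlm⟩

end Pool.Agent.X317.NSQ
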